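import Pool.Agent.Helper189.OD.Defs
set_option autoImplicit false
set_option linter.all false
universe u

namespace OD

section
variable {G : Type u} [Group G] {P : Set G}

theorem Cone.inv_not (hP : Cone P) {a : G} (h : a ∈ P) (h' : a⁻¹ ∈ P) : False :=
  hP.one (by have := hP.mul _ h _ h'; rwa [mul_inv_cancel] at this)

theorem Cone.conj' (hP : Cone P) {a : G} (h : a ∈ P) (g : G) : g⁻¹ * a * g ∈ P := by
  have := hP.conj a h g⁻¹
  rwa [inv_inv] at this

theorem Cone.pow_mem (hP : Cone P) {a : G} (h : a ∈ P) : ∀ n : ℕ, 0 < n → a ^ n ∈ P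
  | 0, h0 => absurd h0 (lt_irrefl _)
  | 1, _ => by rwa [pow_one]
  | n + 2, _ => by rw [pow_succ]; exact hP.mul _ (Cone.pow_mem hP h (n + 1) (Nat.succ_pos _)) _ h

theorem Cone.pow_lt (hP : Cone P) {x y : G} (h : x⁻¹ * y ∈ P) : ∀ n : ℕ, 0 < n → (x ^ n)⁻¹ * y ^ n ∈ P
  | 0, h0 => absurd h0 (lt_irrefl _)
  | 1, _ => by rwa [pow_one, pow_one]
  | n + 2, _ => by
    have h1 := Cone.pow_lt hP h (n + 1) (Nat.succ_pos _)
    have h2 := hP.mul _ (hP.conj' h1 x) _ h
    have h3 : x⁻¹ * ((x ^ (n + 1))⁻¹ * y ^ (n + 1)) * x * (x⁻¹ * y) = (x ^ (n + 2))⁻¹ * y ^ (n + 2) := by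
      rw [pow_succ x (n + 1), pow_succ y (n + 1)]; group
    rwa [h3] at h2

/-- uniqueness of roots in an ordered group -/
theorem Cone.root (hP : Cone P) {x y : G} {n : ℕ} (hn : 0 < n) (h : x ^ n = y ^ n) : x = y := by
  rcases hP.tot (x⁻¹ * y) with h1 | h1 | h1
  · exact (inv_mul_eq_one.1 h1)
  · have := hP.pow_lt h1 n hn
    rw [h, inv_mul_cancel] at this
    exact absurd this hP.one
  · rw [mul_inv_rev, inv_inv] at h1
    have := hP.pow_lt h1 n hn
    rw [h, inv_mul_cancel] at this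
    exact absurd this hP.one

theorem Cone.tf (hP : Cone P) : TF G := fun q n hn hq => hP.root (x := q) (y := 1) hn (by rw [hq, one_pow])

/-- commuting with a power implies commuting -/
theorem Cone.comm_of_pow (hP : Cone P) {x y : G} {n : ℕ} (hn : 0 < n) (h : x ^ n * y = y * x ^ n) : x * y = y * x := by
  have h1 : (y⁻¹ * x * y) ^ n = x ^ n := by
    have : (y⁻¹ * x * y) ^ n = y⁻¹ * x ^ n * y := by
      have := conj_pow (i := n) (a := y⁻¹) (b := x)
      rwa [inv_inv] at this
    rw [this, mul_assoc, h]; group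
  have h2 := hP.root hn h1
  have h3 : y * (y⁻¹ * x * y) = y * x := by rw [h2]
  rw [← h3]; group

/-- the linear order defined by a cone -/
theorem Cone.exists_order (hP : Cone P) : ∃ (_ : LinearOrder G) (_ : MulLeftMono G) (_ : MulRightMono G),
    ∀ a b : G, a < b ↔ a⁻¹ * b ∈ P := by
  classical
  let lo : LinearOrder G :=
    { le := fun a b => a = b ∨ a⁻¹ * b ∈ P
      lt := fun a b => a⁻¹ * b ∈ P
      le_refl := fun a => Or.inl rfl
      le_trans := by
        rintro a b c (rfl | h) (rfl | h')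
        · exact Or.inl rfl
        · exact Or.inr h'
        · exact Or.inr h
        · right
          have := hP.mul _ h _ h'
          have h3 : a⁻¹ * b * (b⁻¹ * c) = a⁻¹ * c := by group
          rwa [h3] at this
      lt_iff_le_not_ge := by
        intro a b
        constructor
        · intro h
          refine ⟨Or.inr h, ?_⟩
          rintro (h' | h')
          · subst h'; rw [inv_mul_cancel] at h; exact hP.one h
          · refine hP.inv_not h ?_
            rw [mul_inv_rev, inv_inv]; exact h'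
        · rintro ⟨h | h, h'⟩
          · exact absurd (Or.inl h.symm) h'
          · exact h
      le_antisymm := by
        rintro a b (h | h) (h' | h')
        · exact h
        · exact h
        · exact h'.symm
        · exfalso
          refine hP.inv_not h ?_
          rw [mul_inv_rev, inv_inv]; exact h'
      le_total := by
        intro a b
        rcases hP.tot (a⁻¹ * b) with h | h | h
        · left; left; exact inv_mul_eq_one.1 h
        · left; right; exact h
        · right; right; rwa [mul_inv_rev, inv_inv] at h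
      toDecidableLE := fun _ _ => Classical.dec _ }
  refine ⟨lo, ⟨?_⟩, ⟨?_⟩, fun a b => Iff.rfl⟩
  · intro c a b h
    show c * a ≤ c * b
    rcases h with h | h
    · left; rw [h]
    · right
      have : (c * a)⁻¹ * (c * b) = a⁻¹ * b := by group
      show (c * a)⁻¹ * (c * b) ∈ P
      rw [this]; exact h
  · intro c a b h
    show a * c ≤ b * c
    rcases h with h | h
    · left; rw [h]
    · right
      have : (a * c)⁻¹ * (b * c) = c⁻¹ * (a⁻¹ * b) * c := by group
      show (a * c)⁻¹ * (b * c) ∈ P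
      rw [this]; exact hP.conj' h c

/-- the cone of a linear order -/
theorem cone_of_order (G : Type u) [Group G] [LinearOrder G] [MulLeftMono G] [MulRightMono G] :
    Cone {g : G | 1 < g} := by
  refine ⟨?_, ?_, ?_, ?_⟩
  · intro a ha b hb
    exact one_lt_mul' ha hb
  · intro a ha g
    show 1 < g * a * g⁻¹
    have h1 : (1:G) < a := ha
    have h2 : g * 1 < g * a := mul_lt_mul_right h1 g
    have h3 : g * 1 * g⁻¹ < g * a * g⁻¹ := mul_lt_mul_left h2 g⁻¹
    simpa using h3
  · exact lt_irrefl _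
  · intro g
    rcases lt_trichotomy g 1 with h | h | h
    · right; right; exact one_lt_inv'.2 h
    · left; exact h
    · right; left; exact h

/-- the isolator of an abelian normal subgroup of an ordered group -/
theorem isol (P : Set G) (hP : Cone P) (B : Subgroup G)
    (hB : B.Normal) (hBab : ∀ a ∈ B, ∀ b ∈ B, a * b = b * a) :
    ∃ I : Subgroup G, I.Normal ∧ B ≤ I ∧ (∀ a ∈ I, ∀ b ∈ I, a * b = b * a) ∧
      ∀ g : G, ∀ n : ℕ, 0 < n → g ^ n ∈ I → g ∈ I := by
  have hcomm : ∀ x y : G, (∃ n, 0 < n ∧ x ^ n ∈ B) → (∃ n, 0 < n ∧ y ^ n ∈ B) → x * y = y * x := by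
    rintro x y ⟨n, hn, hx⟩ ⟨m, hm, hy⟩
    refine hP.comm_of_pow hn ?_
    refine (hP.comm_of_pow (x := y) hm ?_).symm
    exact hBab _ hy _ hx
  let I : Subgroup G :=
    { carrier := {g | ∃ n, 0 < n ∧ g ^ n ∈ B}
      one_mem' := ⟨1, one_pos, by rw [one_pow]; exact B.one_mem⟩
      mul_mem' := by
        rintro x y ⟨n, hn, hx⟩ ⟨m, hm, hy⟩
        have hc : Commute x y := hcomm x y ⟨n, hn, hx⟩ ⟨m, hm, hy⟩
        refine ⟨n * m, Nat.mul_pos hn hm, ?_⟩
        rw [hc.mul_pow]
        refine B.mul_mem ?_ ?_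
        · rw [pow_mul]; exact B.pow_mem hx m
        · rw [mul_comm, pow_mul]; exact B.pow_mem hy n
      inv_mem' := by
        rintro x ⟨n, hn, hx⟩
        exact ⟨n, hn, by rw [inv_pow]; exact B.inv_mem hx⟩ }
  refine ⟨I, ⟨?_⟩, ?_, ?_, ?_⟩
  · rintro x ⟨n, hn, hx⟩ g
    refine ⟨n, hn, ?_⟩
    rw [conj_pow]; exact hB.conj_mem _ hx g
  · intro x hx; exact ⟨1, one_pos, by rwa [pow_one]⟩
  · intro a ha b hb; exact hcomm a b ha hb
  · rintro g n hn ⟨m, hm, hg⟩
    exact ⟨n * m, Nat.mul_pos hn hm, by rw [pow_mul]; exact hg⟩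

/-- quotient of an ordered group by a convex normal subgroup -/
theorem quot_cone (P : Set G) (hP : Cone P) (U : Subgroup G) [hU : U.Normal]
    (hc : ∀ v ∈ U, ∀ g ∈ P, g⁻¹ * v ∈ P → g ∈ U) :
    Cone {x : G ⧸ U | ∃ g ∈ P, g ∉ U ∧ (QuotientGroup.mk g : G ⧸ U) = x} := by
  refine ⟨?_, ?_, ?_, ?_⟩
  · rintro _ ⟨a, ha, haU, rfl⟩ _ ⟨b, hb, hbU, rfl⟩
    refine ⟨a * b, hP.mul _ ha _ hb, ?_, rfl⟩
    intro h
    apply haU
    refine hc _ h a ha ?_
    rwa [inv_mul_cancel_left]
  · rintro _ ⟨a, ha, haU, rfl⟩ g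
    obtain ⟨g, rfl⟩ := QuotientGroup.mk_surjective g
    refine ⟨g * a * g⁻¹, hP.conj _ ha _, ?_, rfl⟩
    intro h
    apply haU
    have := hU.conj_mem _ h g⁻¹
    have h2 : g⁻¹ * (g * a * g⁻¹) * g⁻¹⁻¹ = a := by group
    rwa [h2] at this
  · rintro ⟨a, ha, haU, h⟩
    exact haU ((QuotientGroup.eq_one_iff a).1 h)
  · intro x
    obtain ⟨g, rfl⟩ := QuotientGroup.mk_surjective x
    by_cases hg : g ∈ U
    · left; exact (QuotientGroup.eq_one_iff g).2 hg
    · rcases hP.tot g with h | h | h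
      · rw [h] at hg; exact absurd U.one_mem hg
      · right; left; exact ⟨g, h, hg, rfl⟩
      · right; right; exact ⟨g⁻¹, h, fun h' => hg (by simpa using U.inv_mem h'), rfl⟩

end

end OD
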