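import Pool.Agent.Helper189.OD.Defs
set_option autoImplicit false
set_option linter.all false
universe u

namespace OD

/-- functions on a group with the left translation action -/
def Trans (C A : Type u) : Type u := C → A

instance (C A : Type u) [AddCommGroup A] : AddCommGroup (Trans C A) := inferInstanceAs (AddCommGroup (C → A))

theorem Trans.add_app {C A : Type u} [AddCommGroup A] (f g : Trans C A) (q : C) : (f + g) q = f q + g q := rfl
theorem Trans.zero_app {C A : Type u} [AddCommGroup A] (q : C) : (0 : Trans C A) q = 0 := rfl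

instance (C A : Type u) [Group C] [AddCommGroup A] : DistribMulAction C (Trans C A) where
  smul c f := fun q => f (c⁻¹ * q)
  one_smul f := by
    funext q
    show f (1⁻¹ * q) = f q
    rw [inv_one, one_mul]
  mul_smul a b f := by
    funext q
    show f ((a * b)⁻¹ * q) = f (b⁻¹ * (a⁻¹ * q))
    rw [mul_inv_rev, mul_assoc]
  smul_zero a := rfl
  smul_add a f g := rfl

theorem Trans.smul_app {C A : Type u} [Group C] [AddCommGroup A] (c : C) (f : Trans C A) (q : C) :
    (c • f) q = f (c⁻¹ * q) := rfl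

/-- Krasner-Kaloujnine derivation -/
theorem kk {Γ C : Type u} [Group Γ] [Group C] (P : Set Γ) (hP : Cone P) (ι : Γ →* C)
    (hab : ∀ a b : Γ, ι a = 1 → ι b = 1 → a * b = b * a) (V : Subgroup Γ) (hV : V.Normal) (hVι : ∀ v ∈ V, ι v = 1) :
    ∃ (X : Type u) (_ : AddCommGroup X) (_ : DistribMulAction C X) (d : Γ → X) (K0 : Set X),
      (∀ g h : Γ, d (g * h) = d g + ι g • d h) ∧ (∀ x ∈ K0, ∀ y ∈ K0, x + y ∈ K0) ∧
      (∀ (c : C), ∀ x ∈ K0, c • x ∈ K0) ∧ (0 : X) ∉ K0 ∧ (∀ v ∈ V, v ∈ P → d v ∈ K0) := by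
  classical
  letI : CommGroup ι.ker := { (inferInstance : Group ι.ker) with
    mul_comm := fun a b => Subtype.ext (hab _ _ a.2 b.2) }
  let s : C → Γ := fun q => if h : ∃ x, ι x = q then h.choose else 1
  have hs : ∀ q, (∃ x, ι x = q) → ι (s q) = q := by
    intro q h
    show ι (if h : ∃ x, ι x = q then h.choose else 1) = q
    rw [dif_pos h]; exact h.choose_spec
  have hr : ∀ (g : Γ) (q : C), (∃ x, ι x = (ι g)⁻¹ * q) ↔ ∃ x, ι x = q := by
    intro g q
    constructor
    · rintro ⟨x, hx⟩; exact ⟨g * x, by rw [map_mul, hx]; group⟩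
    · rintro ⟨x, hx⟩; exact ⟨g⁻¹ * x, by rw [map_mul, hx, map_inv]⟩
  let e : Γ → C → Γ := fun g q => if ∃ x, ι x = q then (s q)⁻¹ * g * s ((ι g)⁻¹ * q) else 1
  have he : ∀ g q, e g q ∈ ι.ker := by
    intro g q
    show (if ∃ x, ι x = q then (s q)⁻¹ * g * s ((ι g)⁻¹ * q) else 1) ∈ ι.ker
    split_ifs with h
    · rw [MonoidHom.mem_ker, map_mul, map_mul, map_inv, hs q h, hs _ ((hr g q).2 h)]; group
    · exact ι.ker.one_mem
  have hee : ∀ g h q, e (g * h) q = e g q * e h ((ι g)⁻¹ * q) := by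
    intro g h q
    show (if ∃ x, ι x = q then (s q)⁻¹ * (g * h) * s ((ι (g * h))⁻¹ * q) else 1) =
      (if ∃ x, ι x = q then (s q)⁻¹ * g * s ((ι g)⁻¹ * q) else 1) *
      (if ∃ x, ι x = (ι g)⁻¹ * q then (s ((ι g)⁻¹ * q))⁻¹ * h * s ((ι h)⁻¹ * ((ι g)⁻¹ * q)) else 1)
    by_cases hq : ∃ x, ι x = q
    · rw [if_pos hq, if_pos hq, if_pos ((hr g q).2 hq)]
      rw [map_mul, mul_inv_rev, mul_assoc (ι h)⁻¹ (ι g)⁻¹ q]
      group
    · rw [if_neg hq, if_neg hq, if_neg (fun h => hq ((hr g q).1 h)), one_mul]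
  let d : Γ → Trans C (Additive ι.ker) := fun g q => Additive.ofMul ⟨e g q, he g q⟩
  have hdv : ∀ v ∈ V, v ∈ P → ∀ q, ((∃ x, ι x = q) → e v q ∈ P) ∧ ((¬ ∃ x, ι x = q) → e v q = 1) := by
    intro v hv hvP q
    constructor
    · intro hq
      show (if ∃ x, ι x = q then (s q)⁻¹ * v * s ((ι v)⁻¹ * q) else 1) ∈ P
      rw [if_pos hq, hVι v hv, inv_one, one_mul]
      have := hP.conj v hvP (s q)⁻¹
      rwa [inv_inv] at this
    · intro hq
      show (if ∃ x, ι x = q then (s q)⁻¹ * v * s ((ι v)⁻¹ * q) else 1) = 1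
      rw [if_neg hq]
  let S : AddSubsemigroup (Trans C (Additive ι.ker)) :=
    AddSubsemigroup.closure {x | ∃ (c : C) (v : Γ), v ∈ V ∧ v ∈ P ∧ x = c • d v}
  let val : Additive ι.ker → Γ := fun a => ((Additive.toMul a : ι.ker) : Γ)
  have hval : ∀ a b, val (a + b) = val a * val b := fun a b => rfl
  have hT : ∀ x ∈ S, (∀ q, val (x q) = 1 ∨ val (x q) ∈ P) ∧ ∃ q, val (x q) ∈ P := by
    intro x hx
    induction hx using AddSubsemigroup.closure_induction with
    | mem x hx =>
      obtain ⟨c, v, hv, hvP, rfl⟩ := hx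
      have h1 : ∀ q, val ((c • d v) q) = e v (c⁻¹ * q) := fun q => rfl
      constructor
      · intro q
        rw [h1]
        by_cases hq : ∃ x, ι x = c⁻¹ * q
        · right; exact (hdv v hv hvP _).1 hq
        · left; exact (hdv v hv hvP _).2 hq
      · refine ⟨c, ?_⟩
        rw [h1, inv_mul_cancel]
        exact (hdv v hv hvP _).1 ⟨1, map_one _⟩
    | add x y hx hy ihx ihy =>
      constructor
      · intro q
        rw [Trans.add_app, hval]
        rcases ihx.1 q with h | h <;> rcases ihy.1 q with h' | h'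
        · left; rw [h, h', one_mul]
        · right; rw [h, one_mul]; exact h'
        · right; rw [h', mul_one]; exact h
        · right; exact hP.mul _ h _ h'
      · obtain ⟨q, hq⟩ := ihx.2
        refine ⟨q, ?_⟩
        rw [Trans.add_app, hval]
        rcases ihy.1 q with h' | h'
        · rw [h', mul_one]; exact hq
        · exact hP.mul _ hq _ h'
  refine ⟨Trans C (Additive ι.ker), inferInstance, inferInstance, d, S, ?_, ?_, ?_, ?_, ?_⟩
  · intro g h
    funext q
    rw [Trans.add_app, Trans.smul_app]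
    exact congrArg Additive.ofMul (Subtype.ext (hee g h q))
  · intro x hx y hy; exact S.add_mem hx hy
  · intro c x hx
    show c • x ∈ S
    induction hx using AddSubsemigroup.closure_induction with
    | mem x hx =>
      obtain ⟨c', v, hv, hvP, rfl⟩ := hx
      exact AddSubsemigroup.subset_closure ⟨c * c', v, hv, hvP, by rw [mul_smul]⟩
    | add x y hx hy ihx ihy => rw [smul_add]; exact S.add_mem ihx ihy
  · intro h0
    obtain ⟨q, hq⟩ := (hT 0 h0).2
    exact hP.one hq
  · intro v hv hvP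
    exact AddSubsemigroup.subset_closure ⟨1, v, hv, hvP, by rw [one_smul]⟩

end OD
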