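import Pool.Agent.Helper189.OD.Defs
set_option autoImplicit false
set_option linter.all false
universe u

namespace OD

/-- Ore condition for nilpotent groups from the finitely generated case (in `Type`) -/
theorem oreN_of_fg {C : Type u} [Group C] (hn : Group.IsNilpotent C)
    (h : ∀ (Q : Type) [Group Q], Group.IsNilpotent Q → Group.FG Q → OreN Q) : OreN C := by
  classical
  intro f g hf hg
  let S : Finset C := f.coeff.support ∪ g.coeff.support
  let e := S.equivFin
  let F : FreeGroup (Fin S.card) →* C := FreeGroup.lift (fun i => ((e.symm i : S) : C))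
  let Q := FreeGroup (Fin S.card) ⧸ F.ker
  let j : Q →* C := QuotientGroup.kerLift F
  have hj : Function.Injective j := QuotientGroup.kerLift_injective F
  have hker : j.ker ≤ Subgroup.center Q := by
    rw [(MonoidHom.ker_eq_bot_iff j).2 hj]; exact bot_le
  have hQn : Group.IsNilpotent Q := Subgroup.isNilpotent_of_ker_le_center j hker
  have hQfg : Group.FG Q := inferInstance
  have hS : ∀ x ∈ S, x ∈ Set.range j := by
    intro x hx
    refine ⟨(QuotientGroup.mk (FreeGroup.of (e ⟨x, hx⟩)) : Q), ?_⟩
    show F (FreeGroup.of (e ⟨x, hx⟩)) = x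
    simp [F]
  have hsf : (f.coeff.support : Set C) ⊆ Set.range j := fun x hx => hS x (Finset.mem_union_left _ hx)
  have hsg : (g.coeff.support : Set C) ⊆ Set.range j := fun x hx => hS x (Finset.mem_union_right _ hx)
  have hf0 := MonoidAlgebra.mapDomain_comapDomain (R := ℕ) hsf hj
  have hg0 := MonoidAlgebra.mapDomain_comapDomain (R := ℕ) hsg hj
  obtain ⟨s, t, hs, ht, hst⟩ := h Q hQn hQfg (MonoidAlgebra.comapDomain j hj f) (MonoidAlgebra.comapDomain j hj g)
    (by
      intro h0
      rw [h0, MonoidAlgebra.mapDomain_zero] at hf0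
      exact hf hf0.symm)
    (by
      intro h0
      rw [h0, MonoidAlgebra.mapDomain_zero] at hg0
      exact hg hg0.symm)
  have hinj := MonoidAlgebra.mapDomain_injective (R := ℕ) hj
  refine ⟨MonoidAlgebra.mapDomain j s, MonoidAlgebra.mapDomain j t, ?_, ?_, ?_⟩
  · intro h0
    apply hs; apply hinj
    rw [h0, MonoidAlgebra.mapDomain_zero]
  · intro h0
    apply ht; apply hinj
    rw [h0, MonoidAlgebra.mapDomain_zero]
  · have := congrArg (MonoidAlgebra.mapDomain j) hst
    rwa [MonoidAlgebra.mapDomain_mul, MonoidAlgebra.mapDomain_mul, hf0, hg0] at this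

end OD
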