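import Pool.Agent.Helper189.OD.Semi
import Pool.Agent.Helper189.OD.KK
import Pool.Agent.Helper189.OD.Basic
import Pool.Agent.Helper189.OD.OreFG
import Pool.Agent.Helper8.OD_key
import Pool.Agent.Helper8.OD_prod
set_option autoImplicit false
set_option linter.all false
universe u

namespace OD

/-- the statement of the lemma on ordered modules -/
def OLocal : Prop := ∀ {C : Type u} [Group C] (_ : OreN C) (_ : ∃ P : Set C, Cone P)
    {X : Type u} [AddCommGroup X] [DistribMulAction C X] (K0 : Set X) (_ : ∀ x ∈ K0, ∀ y ∈ K0, x + y ∈ K0)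
    (_ : ∀ (c : C), ∀ x ∈ K0, c • x ∈ K0) (_ : (0 : X) ∉ K0),
    ∃ (Y : Type u) (_ : AddCommGroup Y) (_ : DistribMulAction C Y) (f : X →+ Y) (K : Set Y),
      (∀ (c : C) (x : X), f (c • x) = c • f x) ∧ (∀ x ∈ K0, f x ∈ K) ∧
      (∀ x ∈ K, ∀ y ∈ K, x + y ∈ K) ∧ (∀ (c : C), ∀ x ∈ K, c • x ∈ K) ∧ (0 : Y) ∉ K ∧
      (∀ y : Y, y = 0 ∨ y ∈ K ∨ -y ∈ K) ∧
      (∀ (c : C) (n : ℕ), 0 < n → ∀ y : Y, ∃ z : Y, ∑ i ∈ Finset.range n, c ^ i • z = y)

theorem core (hOL : OLocal.{u}) (hore : ∀ (Q : Type) [Group Q], Group.IsNilpotent Q → Group.FG Q → OreN Q)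
    {Γ C : Type u} [Group Γ] [Group C] (P : Set Γ) (hP : Cone P) (hCn : Group.IsNilpotent C) (hCd : Dvb C)
    (PC : Set C) (hPC : Cone PC) (ι : Γ →* C) (hab : ∀ a b : Γ, ι a = 1 → ι b = 1 → a * b = b * a)
    (V : Subgroup Γ) (hV : V.Normal) (hVι : ∀ v ∈ V, ι v = 1) :
    ∃ (H : Type u) (_ : Group H) (PH : Set H) (φ : Γ →* H), Cone PH ∧ Dvb H ∧
      (∀ v ∈ V, v ∈ P → φ v ∈ PH) ∧ (∀ g : Γ, φ g = 1 → ι g = 1) := by
  obtain ⟨X, _, _, d, K0, hd, hadd, hsm, h0, hdV⟩ := kk P hP ι hab V hV hVι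
  obtain ⟨Y, _, _, f, K, hf, hfK, haddK, hsmK, h0K, htot, hdiv⟩ :=
    hOL (oreN_of_fg hCn hore) ⟨PC, hPC⟩ K0 hadd hsm h0
  obtain ⟨H, _, PH, φ, hPH, hHd, h1, h2⟩ := semi hCd PC hPC K haddK hsmK h0K htot hdiv ι (fun g => f (d g))
    (fun g h => by rw [hd, map_add, hf])
  exact ⟨H, inferInstance, PH, φ, hPH, hHd, fun v hv hvP => h1 v (hVι v hv) (hfK _ (hdV v hv hvP)), h2⟩

/-- the statement of the embedding theorem for torsion-free nilpotent groups -/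
def Malcev : Prop := ∀ {Q : Type u} [Group Q] (_ : Group.IsNilpotent Q) (_ : TF Q),
    ∃ (C : Type u) (_ : Group C) (PC : Set C) (ι : Q →* C), Group.IsNilpotent C ∧ Dvb C ∧ Cone PC ∧
      Function.Injective ι

theorem coreG (hOL : OLocal.{u}) (hore : ∀ (Q : Type) [Group Q], Group.IsNilpotent Q → Group.FG Q → OreN Q)
    (hM : Malcev.{u})
    {G : Type u} [Group G] (P : Set G) (hP : Cone P) (A : Subgroup G) (hA : A.Normal)
    (hAab : ∀ a ∈ A, ∀ b ∈ A, a * b = b * a) (hnil : Group.IsNilpotent (G ⧸ A)) (V : Subgroup G) (hV : V.Normal)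
    (hjump : ∀ u ∈ V, u ∈ P → ∀ b ∈ V, ∃ (x : G) (n : ℕ), b = x * u ^ n * x⁻¹ ∨ b⁻¹ * (x * u ^ n * x⁻¹) ∈ P) :
    ∃ (H : Type u) (_ : Group H) (PH : Set H) (φ : G →* H), Cone PH ∧ Dvb H ∧
      (∀ v ∈ V, v ∈ P → φ v ∈ PH) := by
  have hkey : (∀ a ∈ A, ∀ v ∈ V, a * v = v * a) ∧ (∀ v ∈ V, ∀ w ∈ V, v * w = w * v) := by
    obtain ⟨_, _, _, hlt⟩ := hP.exists_order
    refine key A V hA hV hAab hnil ?_
    intro u hu h1 b hb
    have huP : u ∈ P := by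
      have := (hlt 1 u).1 h1
      rwa [inv_one, one_mul] at this
    obtain ⟨x, n, h | h⟩ := hjump u hu huP b hb
    · exact ⟨x, n, h.le⟩
    · exact ⟨x, n, ((hlt _ _).2 h).le⟩
  -- `B = A ⊔ V` is abelian
  have hBab : ∀ a ∈ A ⊔ V, ∀ b ∈ A ⊔ V, a * b = b * a := by
    intro x hx y hy
    obtain ⟨a, ha, v, hv, rfl⟩ := Subgroup.mem_sup_of_normal_left.1 hx
    obtain ⟨b, hb, w, hw, rfl⟩ := Subgroup.mem_sup_of_normal_left.1 hy
    have c1 : Commute a b := hAab a ha b hb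
    have c2 : Commute a w := hkey.1 a ha w hw
    have c3 : Commute v b := (hkey.1 b hb v hv).symm
    have c4 : Commute v w := hkey.2 v hv w hw
    exact ((c1.mul_right c2).mul_left (c3.mul_right c4))
  obtain ⟨I, hI, hBI, hIab, hIs⟩ := isol P hP (A ⊔ V) inferInstance hBab
  have hAI : A ≤ I := le_sup_left.trans hBI
  have hVI : V ≤ I := le_sup_right.trans hBI
  have hQn : Group.IsNilpotent (G ⧸ I) := by
    haveI := hnil
    refine Group.nilpotent_of_surjective (QuotientGroup.map A I (MonoidHom.id G) hAI) ?_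
    intro x
    obtain ⟨g, rfl⟩ := QuotientGroup.mk_surjective x
    exact ⟨(QuotientGroup.mk g : G ⧸ A), rfl⟩
  have hQtf : TF (G ⧸ I) := by
    intro q n hn hq
    obtain ⟨g, rfl⟩ := QuotientGroup.mk_surjective q
    have h1 : ((g ^ n : G) : G ⧸ I) = 1 := hq
    exact (QuotientGroup.eq_one_iff g).2 (hIs g n hn ((QuotientGroup.eq_one_iff _).1 h1))
  obtain ⟨C, _, PC, ι0, hCn, hCd, hPC, hι⟩ := hM hQn hQtf
  have hker : ∀ g : G, (ι0.comp (QuotientGroup.mk' I)) g = 1 → g ∈ I := by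
    intro g hg
    have h1 : ι0 (QuotientGroup.mk g : G ⧸ I) = ι0 1 := by rw [map_one]; exact hg
    exact (QuotientGroup.eq_one_iff g).1 (hι h1)
  obtain ⟨H, _, PH, φ, hPH, hHd, h1, _⟩ := core hOL hore P hP hCn hCd PC hPC (ι0.comp (QuotientGroup.mk' I))
    (fun a b ha hb => hIab a (hker a ha) b (hker b hb)) V hV
    (fun v hv => by
      show ι0 (QuotientGroup.mk v : G ⧸ I) = 1
      rw [(QuotientGroup.eq_one_iff v).2 (hVI hv), map_one])
  exact ⟨H, inferInstance, PH, φ, hPH, hHd, h1⟩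

/-- normal convex subgroup -/
structure NC {G : Type u} [Group G] (P : Set G) (N : Subgroup G) : Prop where
  nor : N.Normal
  cvx : ∀ v ∈ N, ∀ g ∈ P, g⁻¹ * v ∈ P → g ∈ N

section
variable {G : Type u} [Group G] {P : Set G}

theorem NC.total (hP : Cone P) {N M : Subgroup G} (hN : NC P N) (hM : NC P M) : N ≤ M ∨ M ≤ N := by
  by_contra hcon
  push Not at hcon
  obtain ⟨h1, h2⟩ := hcon
  obtain ⟨g, hg, hgM⟩ := SetLike.not_le_iff_exists.1 h1
  obtain ⟨w, hw, hwN⟩ := SetLike.not_le_iff_exists.1 h2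
  -- replace by positive elements
  have pos : ∀ (N M : Subgroup G) (g : G), g ∈ N → g ∉ M → ∃ g' ∈ P, g' ∈ N ∧ g' ∉ M := by
    intro N M g hg hgM
    rcases hP.tot g with h | h | h
    · rw [h] at hgM; exact absurd M.one_mem hgM
    · exact ⟨g, h, hg, hgM⟩
    · exact ⟨g⁻¹, h, N.inv_mem hg, fun h' => hgM (by simpa using M.inv_mem h')⟩
  obtain ⟨g, hgP, hg, hgM⟩ := pos N M g hg hgM
  obtain ⟨w, hwP, hw, hwN⟩ := pos M N w hw hwN
  rcases hP.tot (g⁻¹ * w) with h | h | h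
  · have := inv_mul_eq_one.1 h
    rw [this] at hg; exact hwN hg
  · exact hgM (hM.cvx w hw g hgP h)
  · rw [mul_inv_rev, inv_inv] at h
    exact hwN (hN.cvx g hg w hwP h)

/-- the normal convex subgroup generated by a positive element -/
theorem exists_M (hP : Cone P) (u : G) (hu : u ∈ P) : ∃ M : Subgroup G, NC P M ∧ u ∈ M ∧
    ∀ b ∈ M, ∃ (x : G) (n : ℕ), b = x * u ^ n * x⁻¹ ∨ b⁻¹ * (x * u ^ n * x⁻¹) ∈ P := by
  obtain ⟨_, _, _, hlt⟩ := hP.exists_order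
  have hle : ∀ a b : G, a ≤ b ↔ (a = b ∨ a⁻¹ * b ∈ P) := by
    intro a b; rw [le_iff_eq_or_lt, hlt]
  have hpos : ∀ a : G, a ∈ P ↔ 1 < a := by
    intro a; rw [hlt, inv_one, one_mul]
  have hu1 : 1 < u := (hpos u).1 hu
  have hconj : ∀ (x y z : G), y ≤ z → x * y * x⁻¹ ≤ x * z * x⁻¹ := by
    intro x y z h
    exact mul_le_mul_left (mul_le_mul_right h x) x⁻¹
  have hcomb : ∀ (x y : G) (n m : ℕ), ∃ (z : G), (x * u ^ n * x⁻¹) * (y * u ^ m * y⁻¹) ≤ z * u ^ (n + m) * z⁻¹ := by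
    intro x y n m
    have e1 : ∀ (x : G) (k : ℕ), x * u ^ k * x⁻¹ = (x * u * x⁻¹) ^ k := fun x k => (conj_pow).symm
    have mono : ∀ (a b : G) (k : ℕ), a ≤ b → a ^ k ≤ b ^ k := fun a b k h => pow_le_pow_left' h k
    rcases le_total (x * u * x⁻¹) (y * u * y⁻¹) with h | h
    · refine ⟨y, ?_⟩
      rw [e1, e1, e1, pow_add]
      exact mul_le_mul_left (mono _ _ n h) _
    · refine ⟨x, ?_⟩
      rw [e1, e1, e1, pow_add]
      exact mul_le_mul_right (mono _ _ m h) _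
  let M : Subgroup G :=
    { carrier := {b | (∃ (x : G) (n : ℕ), b ≤ x * u ^ n * x⁻¹) ∧ (∃ (x : G) (n : ℕ), b⁻¹ ≤ x * u ^ n * x⁻¹)}
      one_mem' := ⟨⟨1, 0, by simp⟩, ⟨1, 0, by simp⟩⟩
      mul_mem' := by
        rintro a b ⟨⟨x, n, h1⟩, ⟨x', n', h2⟩⟩ ⟨⟨y, m, h3⟩, ⟨y', m', h4⟩⟩
        constructor
        · obtain ⟨z, hz⟩ := hcomb x y n m
          exact ⟨z, n + m, (mul_le_mul' h1 h3).trans hz⟩
        · obtain ⟨z, hz⟩ := hcomb y' x' m' n'
          rw [mul_inv_rev]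
          exact ⟨z, m' + n', (mul_le_mul' h4 h2).trans hz⟩
      inv_mem' := by
        rintro a ⟨h1, h2⟩
        refine ⟨h2, ?_⟩
        rw [inv_inv]; exact h1 }
  refine ⟨M, ⟨⟨?_⟩, ?_⟩, ?_, ?_⟩
  · rintro a ⟨⟨x, n, h1⟩, ⟨x', n', h2⟩⟩ g
    constructor
    · refine ⟨g * x, n, ?_⟩
      have := hconj g _ _ h1
      have e : g * (x * u ^ n * x⁻¹) * g⁻¹ = g * x * u ^ n * (g * x)⁻¹ := by group
      rwa [e] at this
    · refine ⟨g * x', n', ?_⟩
      have := hconj g _ _ h2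
      have e : g * (x' * u ^ n' * x'⁻¹) * g⁻¹ = g * x' * u ^ n' * (g * x')⁻¹ := by group
      have e2 : g * a⁻¹ * g⁻¹ = (g * a * g⁻¹)⁻¹ := by group
      rwa [e, e2] at this
  · rintro v ⟨⟨x, n, h1⟩, _⟩ g hg hgv
    have hgv' : g ≤ v := ((hlt _ _).2 hgv).le
    refine ⟨⟨x, n, hgv'.trans h1⟩, ⟨1, 0, ?_⟩⟩
    simpa using ((hpos g).1 hg).le
  · refine ⟨⟨1, 1, by simp⟩, ⟨1, 0, ?_⟩⟩
    simpa using hu1.le
  · rintro b ⟨⟨x, n, h1⟩, _⟩
    exact ⟨x, n, (hle _ _).1 h1⟩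

/-- the largest normal convex subgroup missing a given element -/
theorem exists_N (hP : Cone P) (g : G) (hg : g ∈ P) : ∃ N : Subgroup G, NC P N ∧ g ∉ N ∧
    ∀ M : Subgroup G, NC P M → g ∉ M → M ≤ N := by
  let N : Subgroup G :=
    { carrier := {h | ∃ M : Subgroup G, NC P M ∧ g ∉ M ∧ h ∈ M}
      one_mem' := ⟨⊥, ⟨inferInstance, by
        intro v hv x hx hxv
        rw [Subgroup.mem_bot] at hv
        subst hv
        rw [mul_one] at hxv
        exact absurd hxv (fun h => hP.inv_not hx h)⟩, by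
          rw [Subgroup.mem_bot]
          intro h; rw [h] at hg; exact hP.one hg, Subgroup.one_mem _⟩
      mul_mem' := by
        rintro a b ⟨M, hM, hgM, ha⟩ ⟨M', hM', hgM', hb⟩
        rcases NC.total hP hM hM' with h | h
        · exact ⟨M', hM', hgM', M'.mul_mem (h ha) hb⟩
        · exact ⟨M, hM, hgM, M.mul_mem ha (h hb)⟩
      inv_mem' := by
        rintro a ⟨M, hM, hgM, ha⟩
        exact ⟨M, hM, hgM, M.inv_mem ha⟩ }
  refine ⟨N, ⟨⟨?_⟩, ?_⟩, ?_, ?_⟩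
  · rintro a ⟨M, hM, hgM, ha⟩ x
    exact ⟨M, hM, hgM, hM.nor.conj_mem a ha x⟩
  · rintro v ⟨M, hM, hgM, hv⟩ x hx hxv
    exact ⟨M, hM, hgM, hM.cvx v hv x hx hxv⟩
  · rintro ⟨M, hM, hgM, hg'⟩
    exact hgM hg'
  · intro M hM hgM a ha
    exact ⟨M, hM, hgM, ha⟩

end

/-- the statement for one normal convex subgroup -/
theorem local_hom (hOL : OLocal.{u}) (hore : ∀ (Q : Type) [Group Q], Group.IsNilpotent Q → Group.FG Q → OreN Q)
    (hM : Malcev.{u})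
    {G : Type u} [Group G] (P : Set G) (hP : Cone P) (A : Subgroup G) (hA : A.Normal)
    (hAab : ∀ a ∈ A, ∀ b ∈ A, a * b = b * a) (hnil : Group.IsNilpotent (G ⧸ A)) (N : Subgroup G) (hN : NC P N) :
    ∃ (H : Type u) (_ : Group H) (PH : Set H) (φ : G →* H), Cone PH ∧ Dvb H ∧
      (∀ g ∈ N, φ g = 1) ∧ (∀ g ∈ P, g ∉ N → (∀ M : Subgroup G, NC P M → N < M → g ∈ M) → φ g ∈ PH) := by
  haveI := hN.nor
  -- intersection of the larger normal convex subgroups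
  let W : Subgroup G := sInf {M | NC P M ∧ N < M}
  have hNW : N ≤ W := le_sInf (fun M hM => hM.2.le)
  have hWn : W.Normal := by
    refine ⟨fun a ha g => ?_⟩
    rw [Subgroup.mem_sInf] at ha ⊢
    intro M hM
    exact hM.1.nor.conj_mem a (ha M hM) g
  have hQ := quot_cone P hP N hN.cvx
  set PQ : Set (G ⧸ N) := {x : G ⧸ N | ∃ g ∈ P, g ∉ N ∧ (QuotientGroup.mk g : G ⧸ N) = x} with hPQ
  have hAQ : (A.map (QuotientGroup.mk' N)).Normal := hA.map _ (QuotientGroup.mk'_surjective N)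
  have hAQab : ∀ a ∈ A.map (QuotientGroup.mk' N), ∀ b ∈ A.map (QuotientGroup.mk' N), a * b = b * a := by
    rintro _ ⟨a, ha, rfl⟩ _ ⟨b, hb, rfl⟩
    rw [← map_mul, ← map_mul, hAab a ha b hb]
  have hQnil : Group.IsNilpotent ((G ⧸ N) ⧸ A.map (QuotientGroup.mk' N)) := by
    haveI := hnil
    have hle : A ≤ (A.map (QuotientGroup.mk' N)).comap (QuotientGroup.mk' N) := Subgroup.le_comap_map _ _
    refine Group.nilpotent_of_surjective
      (QuotientGroup.map A (A.map (QuotientGroup.mk' N)) (QuotientGroup.mk' N) hle) ?_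
    intro x
    obtain ⟨y, rfl⟩ := QuotientGroup.mk_surjective x
    obtain ⟨g, rfl⟩ := QuotientGroup.mk_surjective y
    exact ⟨(QuotientGroup.mk g : G ⧸ A), rfl⟩
  have hVn : (W.map (QuotientGroup.mk' N)).Normal := hWn.map _ (QuotientGroup.mk'_surjective N)
  obtain ⟨H, _, PH, φ, hPH, hHd, hφ⟩ := coreG hOL hore hM PQ hQ (A.map (QuotientGroup.mk' N)) hAQ hAQab hQnil
    (W.map (QuotientGroup.mk' N)) hVn (by
      rintro u hu ⟨g, hgP, hgN, rfl⟩ b ⟨w, hw, rfl⟩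
      obtain ⟨M, hMNC, hgM, hMb⟩ := exists_M hP g hgP
      have hNM : N < M := by
        rcases NC.total hP hN hMNC with h | h
        · exact lt_of_le_of_ne h (fun h' => hgN (h' ▸ hgM))
        · exact absurd (h hgM) hgN
      have hwM : w ∈ M := (Subgroup.mem_sInf.1 hw) M ⟨hMNC, hNM⟩
      obtain ⟨x, n, h⟩ := hMb w hwM
      refine ⟨(QuotientGroup.mk x : G ⧸ N), n, ?_⟩
      rcases h with h | h
      · left
        rw [h]; rfl
      · by_cases hin : w⁻¹ * (x * g ^ n * x⁻¹) ∈ N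
        · left
          have := (QuotientGroup.eq_one_iff _).2 hin
          have h2 : ((QuotientGroup.mk w : G ⧸ N))⁻¹ * ((QuotientGroup.mk x : G ⧸ N) * (QuotientGroup.mk g : G ⧸ N) ^ n * (QuotientGroup.mk x : G ⧸ N)⁻¹) = 1 := this
          exact inv_mul_eq_one.1 h2
        · right
          exact ⟨w⁻¹ * (x * g ^ n * x⁻¹), h, hin, rfl⟩)
  refine ⟨H, inferInstance, PH, φ.comp (QuotientGroup.mk' N), hPH, hHd, ?_, ?_⟩
  · intro g hg
    show φ (QuotientGroup.mk g : G ⧸ N) = 1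
    rw [(QuotientGroup.eq_one_iff g).2 hg, map_one]
  · intro g hgP hgN hg
    refine hφ _ ?_ ⟨g, hgP, hgN, rfl⟩
    refine ⟨g, ?_, rfl⟩
    exact Subgroup.mem_sInf.2 (fun M hM => hg M hM.1 hM.2)

/-- main theorem in terms of cones -/
theorem main_cone (hOL : OLocal.{u}) (hore : ∀ (Q : Type) [Group Q], Group.IsNilpotent Q → Group.FG Q → OreN Q)
    (hM : Malcev.{u})
    {G : Type u} [Group G] (P : Set G) (hP : Cone P) (A : Subgroup G) (hA : A.Normal)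
    (hAab : ∀ a ∈ A, ∀ b ∈ A, a * b = b * a) (hnil : Group.IsNilpotent (G ⧸ A)) :
    ∃ (H : Type u) (_ : Group H) (PH : Set H) (φ : G →* H), Cone PH ∧ Dvb H ∧ ∀ g ∈ P, φ g ∈ PH := by
  classical
  let I : Type u := {N : Subgroup G // NC P N}
  letI : LinearOrder I :=
    { (inferInstance : PartialOrder I) with
      le_total := fun a b => NC.total hP a.2 b.2
      toDecidableLE := fun _ _ => Classical.dec _ }
  have h : ∀ i : I, ∃ (H : Type u) (_ : Group H) (PH : Set H) (φ : G →* H), Cone PH ∧ Dvb H ∧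
      (∀ g ∈ i.1, φ g = 1) ∧ (∀ g ∈ P, g ∉ i.1 → (∀ M : Subgroup G, NC P M → i.1 < M → g ∈ M) → φ g ∈ PH) :=
    fun i => local_hom hOL hore hM P hP A hA hAab hnil i.1 i.2
  choose H inst PH φ hPH hHd hφ1 hφ2 using h
  letI := inst
  obtain ⟨PP, hPP, hPP2⟩ := prod_cone H PH hPH
  refine ⟨∀ i, H i, inferInstance, PP, MonoidHom.mk' (fun g i => φ i g) (fun a b => by
    funext i; exact map_mul (φ i) a b), hPP, ?_, ?_⟩
  · intro d n hn
    choose x hx using fun i => hHd i (d i) n hn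
    exact ⟨x, funext hx⟩
  · intro g hg
    obtain ⟨N, hN, hgN, hmax⟩ := exists_N hP g hg
    have key : ∀ M : Subgroup G, NC P M → N < M → g ∈ M := by
      intro M hM hNM
      by_contra hgM
      exact absurd (hmax M hM hgM) (not_le_of_gt hNM)
    refine hPP2 _ ⟨N, hN⟩ (hφ2 ⟨N, hN⟩ g hg hgN key) ?_
    intro j hj
    exact hφ1 j g (key j.1 j.2 hj)

end OD
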