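import Mathlib
set_option autoImplicit false
set_option linter.all false
universe u v

/-! Shared definitions for the project every ordered abelian-by-nilpotent group order-embeds in a divisible ordered group. -/

namespace OD

/-- positive cone of a two-sided invariant total order on a group -/
structure Cone {G : Type u} [Group G] (P : Set G) : Prop where
  mul : ∀ a ∈ P, ∀ b ∈ P, a * b ∈ P
  conj : ∀ a ∈ P, ∀ g : G, g * a * g⁻¹ ∈ P
  one : (1 : G) ∉ P
  tot : ∀ g : G, g = 1 ∨ g ∈ P ∨ g⁻¹ ∈ P

/-- divisible group -/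
def Dvb (G : Type u) [Group G] : Prop := ∀ g : G, ∀ n : ℕ, 0 < n → ∃ x : G, x ^ n = g

/-- positive left Ore condition for the natural group semiring -/
def OreN (C : Type u) [Group C] : Prop :=
  ∀ f g : MonoidAlgebra ℕ C, f ≠ 0 → g ≠ 0 → ∃ s t : MonoidAlgebra ℕ C, s ≠ 0 ∧ t ≠ 0 ∧ s * f = t * g

/-- torsion-free -/
def TF (G : Type u) [Group G] : Prop := ∀ q : G, ∀ n : ℕ, 0 < n → q ^ n = 1 → q = 1

end OD
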