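import Pool.Agent.Helper189.OD.Defs
set_option autoImplicit false
set_option linter.all false
universe u v

namespace OD

theorem ab_pow_mem {Z : Type u} [CommGroup Z] {P : Set Z} (hm : ∀ a ∈ P, ∀ b ∈ P, a * b ∈ P) {a : Z} (ha : a ∈ P) :
    ∀ n : ℕ, 0 < n → a ^ n ∈ P := by
  intro n hn
  induction n with
  | zero => omega
  | succ n ih =>
    rcases Nat.eq_zero_or_pos n with h | h
    · subst h; simpa using ha
    · rw [pow_succ]; exact hm _ (ih h) _ ha

/-- torsion-free abelian groups are orderable -/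
theorem ab_cone {Z : Type u} [CommGroup Z] (htf : TF Z) : ∃ P : Set Z, Cone P := by
  let F : Set (Set Z) := {P | (∀ a ∈ P, ∀ b ∈ P, a * b ∈ P) ∧ (1 : Z) ∉ P}
  obtain ⟨P, hP⟩ : ∃ P, Maximal (· ∈ F) P := by
    refine zorn_subset F ?_
    intro c hc hchain
    refine ⟨⋃₀ c, ⟨?_, ?_⟩, fun s hs => Set.subset_sUnion_of_mem hs⟩
    · rintro a ⟨s, hs, has⟩ b ⟨t, ht, hbt⟩
      rcases hchain.total hs ht with h | h
      · exact ⟨t, ht, (hc ht).1 a (h has) b hbt⟩
      · exact ⟨s, hs, (hc hs).1 a has b (h hbt)⟩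
    · rintro ⟨s, hs, h1⟩
      exact (hc hs).2 h1
  have hmul := hP.1.1
  have hone := hP.1.2
  have key : ∀ g : Z, g ≠ 1 → g ∉ P → ∃ k : ℕ, 0 < k ∧ (g ^ k)⁻¹ ∈ P := by
    intro g hg1 hg
    by_contra hcon
    push Not at hcon
    let P' : Set Z := {x | x ∈ P ∨ (∃ k : ℕ, 0 < k ∧ x = g ^ k) ∨ ∃ p ∈ P, ∃ k : ℕ, 0 < k ∧ x = p * g ^ k}
    have hP' : P' ∈ F := by
      refine ⟨?_, ?_⟩
      · rintro a (ha | ⟨k, hk, rfl⟩ | ⟨p, hp, k, hk, rfl⟩) b (hb | ⟨l, hl, rfl⟩ | ⟨q, hq, l, hl, rfl⟩)
        · exact Or.inl (hmul a ha b hb)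
        · exact Or.inr (Or.inr ⟨a, ha, l, hl, rfl⟩)
        · exact Or.inr (Or.inr ⟨a * q, hmul a ha q hq, l, hl, by rw [mul_assoc]⟩)
        · exact Or.inr (Or.inr ⟨b, hb, k, hk, by rw [mul_comm]⟩)
        · exact Or.inr (Or.inl ⟨k + l, by omega, by rw [pow_add]⟩)
        · exact Or.inr (Or.inr ⟨q, hq, k + l, by omega, by rw [pow_add]; simp only [mul_comm, mul_left_comm]⟩)
        · exact Or.inr (Or.inr ⟨p * b, hmul p hp b hb, k, hk, by rw [mul_right_comm]⟩)
        · exact Or.inr (Or.inr ⟨p, hp, k + l, by omega, by rw [pow_add]; simp only [mul_assoc]⟩)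
        · exact Or.inr (Or.inr ⟨p * q, hmul p hp q hq, k + l, by omega, by rw [pow_add, mul_mul_mul_comm]⟩)
      · rintro (h | ⟨k, hk, h⟩ | ⟨p, hp, k, hk, h⟩)
        · exact hone h
        · exact hg1 (htf g k hk h.symm)
        · apply hcon k hk
          have : (g ^ k)⁻¹ = p := by
            rw [inv_eq_iff_mul_eq_one, mul_comm]; exact h.symm
          rw [this]; exact hp
    have hsub : P ⊆ P' := fun x hx => Or.inl hx
    have h2 := hP.2 hP' hsub
    exact hg (h2 (Or.inr (Or.inl ⟨1, one_pos, by simp⟩)))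
  refine ⟨P, ⟨hmul, fun a ha g => by rw [mul_comm g a, mul_assoc, mul_inv_cancel, mul_one]; exact ha, hone, ?_⟩⟩
  intro g
  by_cases hg1 : g = 1
  · exact Or.inl hg1
  by_cases hg : g ∈ P
  · exact Or.inr (Or.inl hg)
  by_cases hg' : g⁻¹ ∈ P
  · exact Or.inr (Or.inr hg')
  exfalso
  obtain ⟨k, hk, h1⟩ := key g hg1 hg
  obtain ⟨l, hl, h2⟩ := key g⁻¹ (inv_ne_one.2 hg1) hg'
  have h3 : ((g ^ k)⁻¹) ^ l ∈ P := ab_pow_mem hmul h1 l hl
  have h4 : ((g⁻¹ ^ l)⁻¹) ^ k ∈ P := ab_pow_mem hmul h2 k hk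
  apply hone
  have := hmul _ h3 _ h4
  have h5 : ((g ^ k)⁻¹) ^ l * ((g⁻¹ ^ l)⁻¹) ^ k = 1 := by
    have h6 : (g⁻¹ ^ l)⁻¹ = g ^ l := by rw [inv_pow, inv_inv]
    rw [h6, inv_pow, ← pow_mul, ← pow_mul, mul_comm l k, inv_mul_cancel]
  rwa [h5] at this

theorem ab_cone' {Z : Type u} [iZ : Group Z] (hc : ∀ a b : Z, a * b = b * a) (htf : TF Z) : ∃ P : Set Z, Cone P := by
  letI : CommGroup Z := { iZ with mul_comm := hc }
  exact ab_cone htf

theorem center_isol {Q : Type u} [Group Q] (hn : Group.IsNilpotent Q) (htf : TF Q)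
    (x : Q) (n : ℕ) (h0 : 0 < n) (hx : x ^ n ∈ Subgroup.center Q) : x ∈ Subgroup.center Q := by
  obtain ⟨c, hc⟩ := hn.nilpotent'
  have key : ∀ i : ℕ, ∀ z ∈ Subgroup.upperCentralSeries Q i, x * z = z * x := by
    intro i
    induction i with
    | zero =>
      intro z hz
      rw [Subgroup.upperCentralSeries_zero, Subgroup.mem_bot] at hz
      rw [hz, mul_one, one_mul]
    | succ i ih =>
      intro z hz
      have hz1 : z * x * z⁻¹ * x⁻¹ ∈ Subgroup.upperCentralSeries Q i := Subgroup.mem_upperCentralSeries_succ_iff.1 hz x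
      have hu : x * (z * x * z⁻¹ * x⁻¹) = (z * x * z⁻¹ * x⁻¹) * x := ih _ hz1
      set u := z * x * z⁻¹ * x⁻¹ with hudef
      have h1 : z * x = u * x * z := by rw [hudef]; group
      -- z x^k = u^k x^k z
      have h2 : ∀ k : ℕ, z * x ^ k = u ^ k * x ^ k * z := by
        intro k
        induction k with
        | zero => simp
        | succ k ihk =>
          have h3 : Commute (x ^ k) u := (show Commute x u from hu).pow_left k
          calc z * x ^ (k + 1) = (z * x ^ k) * x := by rw [pow_succ, mul_assoc]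
            _ = u ^ k * x ^ k * (z * x) := by rw [ihk]; group
            _ = u ^ k * (x ^ k * u) * x * z := by rw [h1]; group
            _ = u ^ k * (u * x ^ k) * x * z := by rw [h3.eq]
            _ = u ^ (k + 1) * x ^ (k + 1) * z := by rw [pow_succ, pow_succ]; group
      have h4 := h2 n
      have h5 : z * x ^ n = x ^ n * z := Subgroup.mem_center_iff.1 hx z
      rw [h5, mul_assoc] at h4
      have h6 : u ^ n = 1 := by
        have h7 : 1 * (x ^ n * z) = u ^ n * (x ^ n * z) := by rw [one_mul]; exact h4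
        exact (mul_right_cancel h7).symm
      have h8 := htf u n h0 h6
      rw [h8, one_mul] at h1
      exact h1.symm
  rw [Subgroup.mem_center_iff]
  intro z
  exact (key c z (by rw [hc]; trivial)).symm

theorem cone_pow_lt {H : Type u} [Group H] {P : Set H} (hP : Cone P) {x y : H} (h : x⁻¹ * y ∈ P) :
    ∀ n : ℕ, 0 < n → (x ^ n)⁻¹ * y ^ n ∈ P := by
  intro n hn
  induction n with
  | zero => omega
  | succ n ih =>
    rcases Nat.eq_zero_or_pos n with h0 | h0
    · subst h0; simpa using h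
    · have h1 := hP.conj _ (ih h0) x⁻¹
      have h2 := hP.mul _ h1 _ h
      have h3 : (x ^ (n + 1))⁻¹ * y ^ (n + 1) = x⁻¹ * ((x ^ n)⁻¹ * y ^ n) * x⁻¹⁻¹ * (x⁻¹ * y) := by
        rw [pow_succ, pow_succ]; group
      rw [h3]; exact h2

theorem cone_root_unique {H : Type u} [Group H] {P : Set H} (hP : Cone P) (x y : H) (n : ℕ) (hn : 0 < n)
    (h : x ^ n = y ^ n) : x = y := by
  rcases hP.tot (x⁻¹ * y) with h1 | h1 | h1
  · exact inv_mul_eq_one.1 h1
  · exfalso
    have := cone_pow_lt hP h1 n hn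
    rw [h, inv_mul_cancel] at this
    exact hP.one this
  · exfalso
    have h2 : y⁻¹ * x ∈ P := by rw [mul_inv_rev, inv_inv] at h1; exact h1
    have := cone_pow_lt hP h2 n hn
    rw [h, inv_mul_cancel] at this
    exact hP.one this

/-- torsion-free nilpotent groups embed in divisible nilpotent ordered groups -/
theorem malcev
    (rc : ∀ {D : Type u} [Group D], Dvb D → (∀ x y : D, ∀ n : ℕ, 0 < n → x ^ n = y ^ n → x = y) →
      ∀ (K : Subgroup D), Group.IsNilpotent K →
      ∃ M : Subgroup D, K ≤ M ∧ Group.IsNilpotent M ∧ (∀ y : D, y ∈ M ↔ ∃ m : ℕ, 0 < m ∧ y ^ m ∈ K))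
    (core : ∀ {Γ C : Type u} [Group Γ] [Group C] (P : Set Γ), Cone P → Group.IsNilpotent C → Dvb C →
      ∀ (PC : Set C), Cone PC → ∀ (ι : Γ →* C), (∀ a b : Γ, ι a = 1 → ι b = 1 → a * b = b * a) →
      ∀ (V : Subgroup Γ), V.Normal → (∀ v ∈ V, ι v = 1) →
      ∃ (H : Type u) (_ : Group H) (PH : Set H) (φ : Γ →* H), Cone PH ∧ Dvb H ∧
        (∀ v ∈ V, v ∈ P → φ v ∈ PH) ∧ (∀ g : Γ, φ g = 1 → ι g = 1))
    {Q : Type u} [Group Q] (hn : Group.IsNilpotent Q) (htf : TF Q) :
    ∃ (C : Type u) (_ : Group C) (PC : Set C) (ι : Q →* C), Group.IsNilpotent C ∧ Dvb C ∧ Cone PC ∧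
      Function.Injective ι := by
  have main : ∀ (Q : Type u) [Group Q] [Group.IsNilpotent Q], TF Q →
      ∃ (C : Type u) (_ : Group C) (PC : Set C) (ι : Q →* C), Group.IsNilpotent C ∧ Dvb C ∧ Cone PC ∧
        Function.Injective ι := by
    intro Q _ _
    refine Group.nilpotent_center_quotient_ind (P := fun (Q : Type u) _ _ => TF Q →
      ∃ (C : Type u) (_ : Group C) (PC : Set C) (ι : Q →* C), Group.IsNilpotent C ∧ Dvb C ∧ Cone PC ∧
        Function.Injective ι) Q ?_ ?_
    · intro Q _ _ _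
      refine ⟨Q, inferInstance, ∅, MonoidHom.id Q, inferInstance, ?_, ?_, fun a b h => h⟩
      · intro g n _
        exact ⟨1, Subsingleton.elim _ _⟩
      · exact ⟨fun a ha => absurd ha (Set.notMem_empty a), fun a ha => absurd ha (Set.notMem_empty a),
          Set.notMem_empty _, fun g => Or.inl (Subsingleton.elim _ _)⟩
    · intro Q _ hQn ih htfQ
      have hqtf : TF (Q ⧸ Subgroup.center Q) := by
        intro q n h0 hq
        obtain ⟨x, rfl⟩ := QuotientGroup.mk_surjective q
        rw [← QuotientGroup.mk_pow, QuotientGroup.eq_one_iff] at hq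
        exact (QuotientGroup.eq_one_iff x).2 (center_isol hQn htfQ x n h0 hq)
      obtain ⟨R, _, PR, ι', hRn, hRd, hPR, hinj⟩ := ih hqtf
      obtain ⟨PZ, hPZ⟩ := ab_cone' (Z := Subgroup.center Q)
        (fun a b => Subtype.ext (Subgroup.mem_center_iff.1 b.2 a)) (by
        intro q n h0 hq
        apply Subtype.ext
        exact htfQ q n h0 (by rw [← Subgroup.coe_pow]; exact congrArg Subtype.val hq))
      let ι : Q →* R := ι'.comp (QuotientGroup.mk' (Subgroup.center Q))
      have hι : ∀ g : Q, ι g = 1 ↔ g ∈ Subgroup.center Q := by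
        intro g
        constructor
        · intro h
          have h1 : (QuotientGroup.mk' (Subgroup.center Q)) g = 1 := hinj (by rw [map_one]; exact h)
          exact (QuotientGroup.eq_one_iff g).1 h1
        · intro h
          show ι' ((g : Q ⧸ Subgroup.center Q)) = 1
          rw [(QuotientGroup.eq_one_iff g).2 h, map_one]
      let P : Set Q := {g | ι g ∈ PR ∨ ∃ h : g ∈ Subgroup.center Q, (⟨g, h⟩ : Subgroup.center Q) ∈ PZ}
      have hP : Cone P := by
        refine ⟨?_, ?_, ?_, ?_⟩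
        · rintro a (ha | ⟨ha, ha'⟩) b (hb | ⟨hb, hb'⟩)
          · left; show ι (a * b) ∈ PR; rw [map_mul]; exact hPR.mul _ ha _ hb
          · left; show ι (a * b) ∈ PR; rw [map_mul, (hι b).2 hb, mul_one]; exact ha
          · left; show ι (a * b) ∈ PR; rw [map_mul, (hι a).2 ha, one_mul]; exact hb
          · right; exact ⟨Subgroup.mul_mem _ ha hb, hPZ.mul _ ha' _ hb'⟩
        · rintro a (ha | ⟨ha, ha'⟩) g
          · left; show ι (g * a * g⁻¹) ∈ PR; rw [map_mul, map_mul, map_inv]; exact hPR.conj _ ha _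
          · right
            have : g * a * g⁻¹ = a := by rw [(Subgroup.mem_center_iff.1 ha g)]; group
            rw [this]; exact ⟨ha, ha'⟩
        · rintro (h | ⟨h, h'⟩)
          · rw [map_one] at h; exact hPR.one h
          · exact hPZ.one h'
        · intro g
          rcases hPR.tot (ι g) with h | h | h
          · have hg := (hι g).1 h
            rcases hPZ.tot ⟨g, hg⟩ with h1 | h1 | h1
            · left; exact congrArg Subtype.val h1
            · right; left; right; exact ⟨hg, h1⟩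
            · right; right; right; exact ⟨Subgroup.inv_mem _ hg, h1⟩
          · right; left; left; exact h
          · right; right; left; show ι g⁻¹ ∈ PR; rw [map_inv]; exact h
      obtain ⟨H, _, PH, φ, hPH, hHd, hφ1, hφ2⟩ := core P hP hRn hRd PR hPR ι
        (fun a b ha hb => (Subgroup.mem_center_iff.1 ((hι a).1 ha) b).symm) (Subgroup.center Q) inferInstance
        (fun v hv => (hι v).2 hv)
      have hφinj : Function.Injective φ := by
        rw [injective_iff_map_eq_one]
        intro g hg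
        have h1 := hφ2 g hg
        have h2 := (hι g).1 h1
        rcases hP.tot g with h3 | h3 | h3
        · exact h3
        · exfalso
          have := hφ1 g h2 h3
          rw [hg] at this; exact hPH.one this
        · exfalso
          have := hφ1 g⁻¹ (Subgroup.inv_mem _ h2) h3
          rw [map_inv, hg, inv_one] at this; exact hPH.one this
      have hKn : Group.IsNilpotent φ.range := by
        haveI := hQn
        exact Group.nilpotent_of_mulEquiv (MonoidHom.ofInjective hφinj)
      obtain ⟨M, hKM, hMn, hM⟩ := rc hHd (fun x y n hn h => cone_root_unique hPH x y n hn h) φ.range hKn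
      refine ⟨M, inferInstance, {y | (y : H) ∈ PH}, φ.codRestrict M (fun g => hKM ⟨g, rfl⟩), hMn, ?_, ?_, ?_⟩
      · intro y n h0
        obtain ⟨x, hx⟩ := hHd (y : H) n h0
        obtain ⟨m, hm, hym⟩ := (hM (y : H)).1 y.2
        refine ⟨⟨x, (hM x).2 ⟨n * m, Nat.mul_pos h0 hm, ?_⟩⟩, Subtype.ext ?_⟩
        · rw [pow_mul, hx]; exact hym
        · rw [Subgroup.coe_pow]; exact hx
      · refine ⟨fun a ha b hb => hPH.mul _ ha _ hb, fun a ha g => hPH.conj _ ha _, hPH.one, ?_⟩
        intro g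
        rcases hPH.tot (g : H) with h | h | h
        · left; exact Subtype.ext h
        · right; left; exact h
        · right; right; exact h
      · intro a b h
        exact hφinj (congrArg Subtype.val h)
  haveI := hn
  exact main Q htf

end OD
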