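import Pool.Agent.Helper189.OD.Defs
set_option autoImplicit false
set_option linter.all false
universe u v

namespace OD

namespace OL

section act
variable {C : Type u} [Group C] {M : Type u} [AddCommGroup M] [DistribMulAction C M]

noncomputable def act : MonoidAlgebra ℕ C →ₐ[ℕ] AddMonoid.End M :=
  MonoidAlgebra.lift ℕ (AddMonoid.End M) C (DistribMulAction.toAddMonoidEnd C M)

theorem act_single (c : C) (n : ℕ) (x : M) : act (MonoidAlgebra.single c n) x = n • (c • x) := by
  simp [act]; rfl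

theorem act_mul (s t : MonoidAlgebra ℕ C) (x : M) : act (s * t) x = act s (act t x) := by
  rw [map_mul]; rfl

theorem act_one (x : M) : act (1 : MonoidAlgebra ℕ C) x = x := by
  rw [map_one]; rfl

theorem act_addl (s t : MonoidAlgebra ℕ C) (x : M) : act (s + t) x = act s x + act t x := by
  rw [map_add]; rfl

theorem act_zerol (x : M) : act (0 : MonoidAlgebra ℕ C) x = 0 := by
  rw [map_zero]; rfl

end act

section eps
variable {C : Type u} [Group C]

noncomputable def eps : MonoidAlgebra ℕ C →ₐ[ℕ] ℕ := MonoidAlgebra.lift ℕ ℕ C 1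

theorem eps_ne (s : MonoidAlgebra ℕ C) (hs : s ≠ 0) : eps s ≠ 0 := by
  intro h
  apply hs
  rw [eps, MonoidAlgebra.lift_apply, Finsupp.sum] at h
  rw [← MonoidAlgebra.coeff_inj]
  ext c
  rw [Finset.sum_eq_zero_iff] at h
  by_contra hc
  have := h c (by rw [Finsupp.mem_support_iff]; exact hc)
  simp at this
  exact hc this

theorem mul_ne {s t : MonoidAlgebra ℕ C} (hs : s ≠ 0) (ht : t ≠ 0) : s * t ≠ 0 := by
  intro h
  have := congrArg eps h
  rw [map_mul, map_zero] at this
  rcases mul_eq_zero.1 this with h | h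
  · exact eps_ne s hs h
  · exact eps_ne t ht h

theorem add_ne {s t : MonoidAlgebra ℕ C} (hs : s ≠ 0) : s + t ≠ 0 := by
  intro h
  have := congrArg eps h
  rw [map_add, map_zero] at this
  exact eps_ne s hs (by omega)

theorem single_ne (c : C) (n : ℕ) (hn : n ≠ 0) : (MonoidAlgebra.single c n : MonoidAlgebra ℕ C) ≠ 0 := by
  intro h
  apply hn
  have := congrArg eps h
  rw [map_zero, eps, MonoidAlgebra.lift_single] at this
  simpa using this

end eps

section core
variable {C : Type u} [Group C] {M : Type u} [AddCommGroup M] [DistribMulAction C M]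

/-- strict invariant cones -/
structure SC (K : Set M) : Prop where
  add : ∀ x ∈ K, ∀ y ∈ K, x + y ∈ K
  sm : ∀ (c : C), ∀ x ∈ K, c • x ∈ K
  zero : (0 : M) ∉ K

theorem nsm_mem {K : Set M} (hadd : ∀ x ∈ K, ∀ y ∈ K, x + y ∈ K) (n : ℕ) (hn : n ≠ 0) (x : M) (hx : x ∈ K) :
    n • x ∈ K := by
  induction n with
  | zero => exact absurd rfl hn
  | succ n ih =>
    rcases Nat.eq_zero_or_pos n with h | h
    · subst h; simpa using hx
    · rw [succ_nsmul]; exact hadd _ (ih (by omega)) _ hx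

theorem act_mem {K : Set M} (hadd : ∀ x ∈ K, ∀ y ∈ K, x + y ∈ K) (hsm : ∀ (c : C), ∀ x ∈ K, c • x ∈ K)
    (s : MonoidAlgebra ℕ C) (hs : s ≠ 0) (x : M) (hx : x ∈ K) : act s x ∈ K := by
  have key : s = 0 ∨ act s x ∈ K := by
    induction s using MonoidAlgebra.induction_linear with
    | zero => left; rfl
    | add f g hf hg =>
      by_cases hf0 : f = 0
      · subst hf0
        by_cases hg0 : g = 0
        · left; rw [hg0, add_zero]
        · right; rw [zero_add]
          exact (hg hg0).resolve_left hg0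
      · by_cases hg0 : g = 0
        · right; rw [hg0, add_zero]
          exact (hf hf0).resolve_left hf0
        · right
          rw [act_addl]
          exact hadd _ ((hf hf0).resolve_left hf0) _ ((hg hg0).resolve_left hg0)
    | single c n =>
      by_cases hn : n = 0
      · left; rw [hn]; simp
      · right; rw [act_single]; exact nsm_mem hadd n hn _ (hsm c x hx)
  exact key.resolve_left hs

theorem exists_max (K0 : Set M) (h0 : SC (C := C) K0) :
    ∃ K : Set M, K0 ⊆ K ∧ SC (C := C) K ∧ ∀ K' : Set M, K ⊆ K' → SC (C := C) K' → K' ⊆ K := by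
  obtain ⟨K, hK0, hK⟩ := zorn_subset_nonempty {K : Set M | SC (C := C) K} (by
    intro c hc hchain hne
    refine ⟨⋃₀ c, ⟨?_, ?_, ?_⟩, fun s hs => Set.subset_sUnion_of_mem hs⟩
    · rintro x ⟨s, hs, hx⟩ y ⟨t, ht, hy⟩
      rcases hchain.total hs ht with h | h
      · exact ⟨t, ht, (hc ht).add _ (h hx) _ hy⟩
      · exact ⟨s, hs, (hc hs).add _ hx _ (h hy)⟩
    · rintro g x ⟨s, hs, hx⟩
      exact ⟨s, hs, (hc hs).sm g x hx⟩
    · rintro ⟨s, hs, hx⟩
      exact (hc hs).zero hx) K0 h0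
  exact ⟨K, hK0, hK.prop, fun K' h1 h2 => hK.le_of_ge h2 h1⟩

theorem lemA {K : Set M} (hK : SC (C := C) K) (hmax : ∀ K' : Set M, K ⊆ K' → SC (C := C) K' → K' ⊆ K)
    (x : M) (hx : x ∉ K) : ∃ s : MonoidAlgebra ℕ C, s ≠ 0 ∧ (act s x = 0 ∨ -(act s x) ∈ K) := by
  by_contra hcon
  push Not at hcon
  apply hx
  let K' : Set M := {k | k ∈ K ∨ (∃ s : MonoidAlgebra ℕ C, s ≠ 0 ∧ k = act s x) ∨
    ∃ s : MonoidAlgebra ℕ C, s ≠ 0 ∧ ∃ k' ∈ K, k = k' + act s x}
  have hK' : SC (C := C) K' := by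
    refine ⟨?_, ?_, ?_⟩
    · rintro a ha b hb
      rcases ha with ha | ⟨s, hs, rfl⟩ | ⟨s, hs, k, hk, rfl⟩ <;>
      rcases hb with hb | ⟨t, ht, rfl⟩ | ⟨t, ht, l, hl, rfl⟩
      · exact Or.inl (hK.add _ ha _ hb)
      · exact Or.inr (Or.inr ⟨t, ht, a, ha, rfl⟩)
      · exact Or.inr (Or.inr ⟨t, ht, a + l, hK.add _ ha _ hl, by abel⟩)
      · exact Or.inr (Or.inr ⟨s, hs, b, hb, by abel⟩)
      · exact Or.inr (Or.inl ⟨s + t, add_ne hs, by rw [act_addl]⟩)
      · exact Or.inr (Or.inr ⟨s + t, add_ne hs, l, hl, by rw [act_addl]; abel⟩)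
      · exact Or.inr (Or.inr ⟨s, hs, k + b, hK.add _ hk _ hb, by abel⟩)
      · exact Or.inr (Or.inr ⟨s + t, add_ne hs, k, hk, by rw [act_addl]; abel⟩)
      · exact Or.inr (Or.inr ⟨s + t, add_ne hs, k + l, hK.add _ hk _ hl, by rw [act_addl]; abel⟩)
    · rintro c a ha
      have e : ∀ s : MonoidAlgebra ℕ C, c • act s x = act (MonoidAlgebra.single c 1 * s) x := by
        intro s
        rw [act_mul, act_single, one_smul]
      rcases ha with ha | ⟨s, hs, rfl⟩ | ⟨s, hs, k, hk, rfl⟩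
      · exact Or.inl (hK.sm c a ha)
      · exact Or.inr (Or.inl ⟨_, mul_ne (single_ne c 1 one_ne_zero) hs, e s⟩)
      · exact Or.inr (Or.inr ⟨_, mul_ne (single_ne c 1 one_ne_zero) hs, c • k, hK.sm c k hk, by
          rw [smul_add, e s]⟩)
    · rintro (h | ⟨s, hs, h⟩ | ⟨s, hs, k, hk, h⟩)
      · exact hK.zero h
      · exact (hcon s hs).1 h.symm
      · apply (hcon s hs).2
        have : -(act s x) = k := by
          rw [neg_eq_iff_add_eq_zero, add_comm]; exact h.symm
        rw [this]; exact hk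
  have := hmax K' (fun k hk => Or.inl hk) hK'
  apply this
  exact Or.inr (Or.inl ⟨1, by
    have := single_ne (1 : C) 1 one_ne_zero
    rwa [← MonoidAlgebra.one_def] at this, (act_one x).symm⟩)

theorem lemB (hO : OreN C) {K : Set M} (hK : SC (C := C) K)
    (hmax : ∀ K' : Set M, K ⊆ K' → SC (C := C) K' → K' ⊆ K)
    (x : M) (hx : x ∉ K) (hx' : -x ∉ K) : ∃ s : MonoidAlgebra ℕ C, s ≠ 0 ∧ act s x = 0 := by
  obtain ⟨s, hs, h1⟩ := lemA hK hmax x hx
  obtain ⟨t, ht, h2⟩ := lemA hK hmax (-x) hx'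
  rcases h1 with h1 | h1
  · exact ⟨s, hs, h1⟩
  rcases h2 with h2 | h2
  · refine ⟨t, ht, ?_⟩
    rw [map_neg] at h2
    exact neg_eq_zero.1 h2
  · exfalso
    rw [map_neg, neg_neg] at h2
    obtain ⟨a, b, ha, hb, hab⟩ := hO s t hs ht
    have h3 := act_mem hK.add hK.sm a ha _ h1
    have h4 := act_mem hK.add hK.sm b hb _ h2
    rw [map_neg, ← act_mul] at h3
    rw [← act_mul] at h4
    have h5 := hK.add _ h3 _ h4
    rw [hab, neg_add_cancel] at h5
    exact hK.zero h5

/-- torsion subgroup -/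
def tor (hO : OreN C) : AddSubgroup M where
  carrier := {x | ∃ s : MonoidAlgebra ℕ C, s ≠ 0 ∧ act s x = 0}
  zero_mem' := ⟨MonoidAlgebra.single 1 1, single_ne 1 1 one_ne_zero, by rw [map_zero]⟩
  add_mem' := by
    rintro x y ⟨s, hs, h1⟩ ⟨t, ht, h2⟩
    obtain ⟨a, b, ha, hb, hab⟩ := hO s t hs ht
    refine ⟨a * s, mul_ne ha hs, ?_⟩
    rw [map_add, act_mul, h1, map_zero, hab, act_mul, h2, map_zero, add_zero]
  neg_mem' := by
    rintro x ⟨s, hs, h1⟩
    exact ⟨s, hs, by rw [map_neg, h1, neg_zero]⟩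

theorem tor_smul (hO : OreN C) (c : C) (x : M) (hx : x ∈ tor (C := C) (M := M) hO) :
    c • x ∈ tor (C := C) (M := M) hO := by
  obtain ⟨s, hs, h1⟩ := hx
  refine ⟨s * MonoidAlgebra.single c⁻¹ 1, mul_ne hs (single_ne _ 1 one_ne_zero), ?_⟩
  rw [act_mul, act_single, one_smul, inv_smul_smul, h1]

/-- action on a quotient -/
@[reducible] def quotAct (T : AddSubgroup M) (hT : ∀ (c : C), ∀ x ∈ T, c • x ∈ T) : DistribMulAction C (M ⧸ T) where
  smul c y := QuotientAddGroup.map T T (DistribMulAction.toAddMonoidHom M c) (fun x hx => hT c x hx) y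
  one_smul := by
    rintro ⟨x⟩
    exact congrArg (QuotientAddGroup.mk (s := T)) (one_smul C x)
  mul_smul := by
    rintro a b ⟨x⟩
    exact congrArg (QuotientAddGroup.mk (s := T)) (mul_smul a b x)
  smul_zero := by
    intro a
    exact map_zero (QuotientAddGroup.map T T (DistribMulAction.toAddMonoidHom M a) (fun x hx => hT a x hx))
  smul_add := by
    intro a x y
    exact map_add (QuotientAddGroup.map T T (DistribMulAction.toAddMonoidHom M a) (fun x hx => hT a x hx)) x y

end core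

section coind

/-- coinduced module -/
def Co (C : Type u) (I : Type u) := C → I

variable {C : Type u} [Group C] {I : Type u} [AddCommGroup I]

instance : AddCommGroup (Co C I) := inferInstanceAs (AddCommGroup (C → I))

instance : DistribMulAction C (Co C I) where
  smul c F := fun y => F (y * c)
  one_smul F := by funext y; show F (y * 1) = F y; rw [mul_one]
  mul_smul a b F := by funext y; show F (y * (a * b)) = F (y * a * b); rw [mul_assoc]
  smul_zero a := rfl
  smul_add a F G := rfl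

theorem co_smul (c : C) (F : Co C I) (y : C) : (c • F) y = F (y * c) := rfl

theorem co_sum {ι : Type*} (s : Finset ι) (F : ι → Co C I) (y : C) : (∑ i ∈ s, F i) y = ∑ i ∈ s, F i y :=
  Finset.sum_apply y s F

theorem exists_prim (h : ℤ → I) : ∃ W : ℤ → I, ∀ j, W (j + 1) = W j + h j := by
  refine ⟨fun j => match j with
    | Int.ofNat n => ∑ i ∈ Finset.range n, h i
    | Int.negSucc n => - ∑ i ∈ Finset.range (n + 1), h (-((i : ℤ) + 1)), ?_⟩
  intro j
  match j with
  | Int.ofNat n =>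
    have e : (Int.ofNat n + 1 : ℤ) = Int.ofNat (n + 1) := rfl
    rw [e]
    show ∑ i ∈ Finset.range (n + 1), h i = ∑ i ∈ Finset.range n, h i + h (Int.ofNat n)
    rw [Finset.sum_range_succ]; rfl
  | Int.negSucc 0 =>
    have e : (Int.negSucc 0 + 1 : ℤ) = Int.ofNat 0 := rfl
    rw [e]
    show ∑ i ∈ Finset.range 0, h i = - ∑ i ∈ Finset.range (0 + 1), h (-((i : ℤ) + 1)) + h (Int.negSucc 0)
    simp
  | Int.negSucc (n + 1) =>
    have e : (Int.negSucc (n + 1) + 1 : ℤ) = Int.negSucc n := rfl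
    rw [e]
    show - ∑ i ∈ Finset.range (n + 1), h (-((i : ℤ) + 1)) =
      - ∑ i ∈ Finset.range (n + 1 + 1), h (-((i : ℤ) + 1)) + h (Int.negSucc (n + 1))
    rw [Finset.sum_range_succ (fun i : ℕ => h (-((i : ℤ) + 1))) (n + 1)]
    have e2 : (Int.negSucc (n + 1) : ℤ) = -(((n + 1 : ℕ) : ℤ) + 1) := by
      rw [Int.negSucc_eq]
    rw [e2]; abel

theorem surj_sub (d : C) (hd : ∀ k : ℤ, d ^ k = 1 → k = 0) (G : Co C I) :
    ∃ V : Co C I, d • V - V = G := by
  classical
  have hrep : ∀ y : C, ∃ k : ℤ, (Quotient.out (QuotientGroup.mk y : C ⧸ Subgroup.zpowers d)) * d ^ k = y := by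
    intro y
    have h1 : (QuotientGroup.mk (Quotient.out (QuotientGroup.mk y : C ⧸ Subgroup.zpowers d)) : C ⧸ Subgroup.zpowers d)
        = QuotientGroup.mk y := Quotient.out_eq _
    rw [QuotientGroup.eq] at h1
    obtain ⟨k, hk⟩ := Subgroup.mem_zpowers_iff.1 h1
    exact ⟨k, by rw [hk]; group⟩
  choose κ hκ using hrep
  choose W hW using fun r : C => exists_prim (I := I) (fun j => G (r * d ^ j))
  refine ⟨fun y => W (Quotient.out (QuotientGroup.mk y : C ⧸ Subgroup.zpowers d)) (κ y), ?_⟩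
  funext y
  show W (Quotient.out (QuotientGroup.mk (y * d) : C ⧸ Subgroup.zpowers d)) (κ (y * d)) -
    W (Quotient.out (QuotientGroup.mk y : C ⧸ Subgroup.zpowers d)) (κ y) = G y
  have h1 : (QuotientGroup.mk (y * d) : C ⧸ Subgroup.zpowers d) = QuotientGroup.mk y := by
    rw [QuotientGroup.eq]
    have : (y * d)⁻¹ * y = d⁻¹ := by group
    rw [this]
    exact Subgroup.inv_mem _ (Subgroup.mem_zpowers d)
  have h2 : κ (y * d) = κ y + 1 := by
    have h3 := hκ (y * d)
    rw [h1] at h3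
    have h4 := hκ y
    set r := Quotient.out (QuotientGroup.mk y : C ⧸ Subgroup.zpowers d)
    have h5 : d ^ κ (y * d) = d ^ (κ y + 1) := by
      rw [zpow_add_one]
      apply mul_left_cancel (a := r)
      rw [h3, ← mul_assoc, h4]
    have h6 : d ^ (κ (y * d) - (κ y + 1)) = 1 := by
      rw [zpow_sub, h5, mul_inv_cancel]
    have := hd _ h6
    omega
  rw [h1, h2, hW, hκ y]
  abel

theorem tele (c : C) (n : ℕ) (V : Co C I) :
    ∑ i ∈ Finset.range n, c ^ i • (c • V - V) = c ^ n • V - V := by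
  induction n with
  | zero => simp
  | succ n ih =>
    rw [Finset.sum_range_succ, ih, smul_sub, ← mul_smul, ← pow_succ]
    abel

theorem co_div (hdiv : ∀ (n : ℕ), 0 < n → ∀ x : I, ∃ y : I, n • y = x)
    (htf : ∀ (c : C) (n : ℕ), 0 < n → c ^ n = 1 → c = 1) (c : C) (n : ℕ) (hn : 0 < n) (F : Co C I) :
    ∃ F' : Co C I, ∑ i ∈ Finset.range n, c ^ i • F' = F := by
  by_cases hc : c = 1
  · subst hc
    choose u hu using fun y => hdiv n hn (F y)
    let u' : Co C I := u
    refine ⟨u', ?_⟩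
    have e : ∀ i ∈ Finset.range n, (1 : C) ^ i • u' = u' := by
      intro i _; rw [one_pow, one_smul]
    rw [Finset.sum_congr rfl e, Finset.sum_const, Finset.card_range]
    funext y
    exact hu y
  · have hd : ∀ k : ℤ, (c ^ n) ^ k = 1 → k = 0 := by
      intro k hk
      by_contra hk0
      apply hc
      have h1 : (c ^ n) ^ k.natAbs = 1 := by
        rcases Int.natAbs_eq k with h | h
        · rw [h, zpow_natCast] at hk; exact hk
        · rw [h, zpow_neg, zpow_natCast, inv_eq_one] at hk; exact hk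
      rw [← pow_mul] at h1
      exact htf c _ (Nat.mul_pos hn (Int.natAbs_pos.2 hk0)) h1
    obtain ⟨V, hV⟩ := surj_sub (c ^ n) hd F
    exact ⟨c • V - V, by rw [tele]; exact hV⟩

end coind

theorem cone_tf {C : Type u} [Group C] {P : Set C} (hP : Cone P) (c : C) (n : ℕ) (hn : 0 < n) (h : c ^ n = 1) :
    c = 1 := by
  have key : ∀ c ∈ P, ∀ n : ℕ, 0 < n → c ^ n ∈ P := by
    intro c hc n hn
    induction n with
    | zero => omega
    | succ n ih =>
      rcases Nat.eq_zero_or_pos n with h | h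
      · subst h; simpa using hc
      · rw [pow_succ]; exact hP.mul _ (ih h) _ hc
  rcases hP.tot c with h1 | h1 | h1
  · exact h1
  · exact absurd (h ▸ key c h1 n hn) hP.one
  · have := key _ h1 n hn
    rw [inv_pow, h, inv_one] at this
    exact absurd this hP.one

/-- embedding into a divisible group -/
noncomputable def iota (X : Type u) [AddCommGroup X] : X →+ (CharacterModule X → AddCircle (1 : ℚ)) where
  toFun x := fun χ => χ x
  map_zero' := by funext χ; exact map_zero χ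
  map_add' x y := by funext χ; exact map_add χ x y

theorem iota_inj (X : Type u) [AddCommGroup X] (x : X) (h : iota X x = 0) : x = 0 := by
  by_contra hx
  obtain ⟨χ, hχ⟩ := CharacterModule.exists_character_apply_ne_zero_of_ne_zero hx
  exact hχ (congrFun h χ)

theorem iota_div (X : Type u) [AddCommGroup X] (n : ℕ) (hn : 0 < n)
    (x : CharacterModule X → AddCircle (1 : ℚ)) : ∃ y : CharacterModule X → AddCircle (1 : ℚ), n • y = x := by
  refine ⟨fun χ => DivisibleBy.div (x χ) (n : ℤ), ?_⟩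
  funext χ
  show n • DivisibleBy.div (x χ) (n : ℤ) = x χ
  rw [← natCast_zsmul]
  exact DivisibleBy.div_cancel _ (by exact_mod_cast hn.ne')

end OL

/-- ordered modules embed in divisible ordered modules -/
theorem ordered_local {C : Type u} [Group C] (hO : OreN C) (hcone : ∃ P : Set C, Cone P)
    {X : Type u} [AddCommGroup X] [DistribMulAction C X] (K0 : Set X) (hadd : ∀ x ∈ K0, ∀ y ∈ K0, x + y ∈ K0)
    (hsm : ∀ (c : C), ∀ x ∈ K0, c • x ∈ K0) (h0 : (0 : X) ∉ K0) :
    ∃ (Y : Type u) (_ : AddCommGroup Y) (_ : DistribMulAction C Y) (f : X →+ Y) (K : Set Y),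
      (∀ (c : C) (x : X), f (c • x) = c • f x) ∧ (∀ x ∈ K0, f x ∈ K) ∧
      (∀ x ∈ K, ∀ y ∈ K, x + y ∈ K) ∧ (∀ (c : C), ∀ x ∈ K, c • x ∈ K) ∧ (0 : Y) ∉ K ∧
      (∀ y : Y, y = 0 ∨ y ∈ K ∨ -y ∈ K) ∧
      (∀ (c : C) (n : ℕ), 0 < n → ∀ y : Y, ∃ z : Y, ∑ i ∈ Finset.range n, c ^ i • z = y) := by
  classical
  obtain ⟨P, hP⟩ := hcone
  let M := OL.Co C (CharacterModule X → AddCircle (1 : ℚ))
  let f0 : X →+ M :=
    { toFun := fun x y => OL.iota X (y • x)
      map_zero' := by funext y; show OL.iota X (y • (0 : X)) = 0; rw [smul_zero, map_zero]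
      map_add' := fun a b => by
        funext y; show OL.iota X (y • (a + b)) = OL.iota X (y • a) + OL.iota X (y • b)
        rw [smul_add, map_add] }
  have hf0 : ∀ (c : C) (x : X), f0 (c • x) = c • f0 x := by
    intro c x; funext y
    show OL.iota X (y • c • x) = OL.iota X ((y * c) • x)
    rw [mul_smul]
  let K1 : Set M := {F | ∀ y, ∃ a ∈ K0, OL.iota X a = F y}
  have hK1 : OL.SC (C := C) K1 := by
    refine ⟨?_, ?_, ?_⟩
    · intro F hF G hG y
      obtain ⟨a, ha, h1⟩ := hF y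
      obtain ⟨b, hb, h2⟩ := hG y
      exact ⟨a + b, hadd a ha b hb, by rw [map_add, h1, h2]; rfl⟩
    · intro c F hF y
      exact hF (y * c)
    · intro h
      obtain ⟨a, ha, h1⟩ := h 1
      have := OL.iota_inj X a h1
      exact h0 (this ▸ ha)
  obtain ⟨K, hK1K, hK, hmax⟩ := OL.exists_max (C := C) K1 hK1
  let T : AddSubgroup M := OL.tor (C := C) (M := M) hO
  have hT : ∀ (c : C), ∀ x ∈ T, c • x ∈ T := fun c x hx => OL.tor_smul hO c x hx
  letI := OL.quotAct (C := C) T hT
  refine ⟨M ⧸ T, inferInstance, OL.quotAct (C := C) T hT, (QuotientAddGroup.mk' T).comp f0,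
    {y | ∃ x ∈ K, QuotientAddGroup.mk' T x = y}, ?_, ?_, ?_, ?_, ?_, ?_, ?_⟩
  · intro c x
    show QuotientAddGroup.mk' T (f0 (c • x)) = _
    rw [hf0]; rfl
  · intro x hx
    refine ⟨f0 x, hK1K ?_, rfl⟩
    intro y
    exact ⟨y • x, hsm y x hx, rfl⟩
  · rintro _ ⟨x, hx, rfl⟩ _ ⟨y, hy, rfl⟩
    exact ⟨x + y, hK.add x hx y hy, map_add _ _ _⟩
  · rintro c _ ⟨x, hx, rfl⟩
    exact ⟨c • x, hK.sm c x hx, rfl⟩
  · rintro ⟨x, hx, h⟩
    have h1 : x ∈ T := (QuotientAddGroup.eq_zero_iff x).1 h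
    obtain ⟨s, hs, h2⟩ := h1
    have := OL.act_mem hK.add hK.sm s hs x hx
    rw [h2] at this
    exact hK.zero this
  · rintro ⟨x⟩
    by_cases h1 : x ∈ K
    · exact Or.inr (Or.inl ⟨x, h1, rfl⟩)
    by_cases h2 : -x ∈ K
    · exact Or.inr (Or.inr ⟨-x, h2, rfl⟩)
    left
    exact (QuotientAddGroup.eq_zero_iff x).2 (OL.lemB hO hK hmax x h1 h2)
  · rintro c n hn ⟨F⟩
    obtain ⟨F', hF'⟩ := OL.co_div (fun n hn x => OL.iota_div X n hn x) (fun c n hn h => OL.cone_tf hP c n hn h) c n hn F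
    refine ⟨QuotientAddGroup.mk' T F', ?_⟩
    have h1 := congrArg (QuotientAddGroup.mk' T) hF'
    rw [map_sum] at h1
    exact h1

end OD
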