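import Pool.Agent.Helper189.OD.Core
import Pool.Agent.Helper189.OD.OLocal
import Pool.Agent.Helper189.OD.Malcev
import Pool.Agent.Helper8.OD_root
import Pool.Agent.Helper294.Ore.Main
set_option autoImplicit false
set_option linter.all false
universe u

namespace OD

theorem oreFG (Q : Type) [Group Q] (hn : Group.IsNilpotent Q) (hf : Group.FG Q) : OreN Q :=
  fun f g hf' hg' => H294Ore.ore_nat Q f g hf' hg'

theorem oLocal : OLocal.{u} := by
  intro C _ hO hcone X _ _ K0 hadd hsm h0
  exact ordered_local hO hcone K0 hadd hsm h0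

theorem malcevAll : Malcev.{u} := fun hn htf =>
  malcev (fun hd hu K hK => root_closure hd hu K hK)
    (fun P hP hCn hCd PC hPC ι hab V hV hVι => core oLocal oreFG P hP hCn hCd PC hPC ι hab V hV hVι) hn htf

/-- every ordered abelian-by-nilpotent group order-embeds in a divisible ordered group -/
theorem main {G : Type u} [Group G] [LinearOrder G] [MulLeftMono G] [MulRightMono G] (A : Subgroup G) (hA : A.Normal)
    (hAab : ∀ a ∈ A, ∀ b ∈ A, a * b = b * a) (hnil : Group.IsNilpotent (G ⧸ A)) :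
    ∃ (H : Type u) (_ : Group H) (_ : LinearOrder H) (_ : MulLeftMono H) (_ : MulRightMono H) (φ : G →* H),
      Function.Injective φ ∧ (∀ a b : G, a ≤ b ↔ φ a ≤ φ b) ∧
      ∀ (h : H) (n : ℕ), 0 < n → ∃ x : H, x ^ n = h := by
  obtain ⟨H, _, PH, φ, hPH, hHd, hφ⟩ := main_cone oLocal oreFG malcevAll {g : G | 1 < g} (cone_of_order G) A hA hAab hnil
  obtain ⟨lo, hl, hr, hlt⟩ := hPH.exists_order
  have hmono : StrictMono φ := by
    intro a b hab
    rw [hlt, ← map_inv, ← map_mul]
    apply hφ
    show 1 < a⁻¹ * b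
    have h1 : a⁻¹ * a < a⁻¹ * b := mul_lt_mul_right hab a⁻¹
    rwa [inv_mul_cancel] at h1
  exact ⟨H, inferInstance, lo, hl, hr, φ, hmono.injective, fun a b => (hmono.le_iff_le).symm, hHd⟩

end OD
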