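import Pool.Agent.Helper189.OD.Defs
set_option autoImplicit false
set_option linter.all false
universe u

namespace OD

/-- split extension of an abelian group by a group -/
@[ext] structure SD (C Y : Type u) where
  y : Y
  c : C

namespace SD
variable {C Y : Type u} [Group C] [AddCommGroup Y] [DistribMulAction C Y]

instance : Mul (SD C Y) := ⟨fun a b => ⟨a.y + a.c • b.y, a.c * b.c⟩⟩
instance : One (SD C Y) := ⟨⟨0, 1⟩⟩
instance : Inv (SD C Y) := ⟨fun a => ⟨-(a.c⁻¹ • a.y), a.c⁻¹⟩⟩

@[simp] theorem mul_y (a b : SD C Y) : (a * b).y = a.y + a.c • b.y := rfl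
@[simp] theorem mul_c (a b : SD C Y) : (a * b).c = a.c * b.c := rfl
@[simp] theorem one_y : (1 : SD C Y).y = 0 := rfl
@[simp] theorem one_c : (1 : SD C Y).c = 1 := rfl
@[simp] theorem inv_y (a : SD C Y) : (a⁻¹).y = -(a.c⁻¹ • a.y) := rfl
@[simp] theorem inv_c (a : SD C Y) : (a⁻¹).c = a.c⁻¹ := rfl

instance : Group (SD C Y) :=
  Group.ofLeftAxioms
    (by
      intro a b c
      ext
      · simp [mul_smul, smul_add, add_assoc]
      · simp [mul_assoc])
    (by
      intro a
      ext <;> simp)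
    (by
      intro a
      ext <;> simp)

theorem pow_c (a : SD C Y) (n : ℕ) : (a ^ n).c = a.c ^ n := by
  induction n with
  | zero => simp
  | succ n ih => rw [pow_succ, mul_c, ih, pow_succ]

theorem pow_y (a : SD C Y) (n : ℕ) : (a ^ n).y = ∑ i ∈ Finset.range n, a.c ^ i • a.y := by
  induction n with
  | zero => simp
  | succ n ih => rw [pow_succ, mul_y, ih, pow_c, Finset.sum_range_succ]

end SD

/-- split extension: order, divisibility and the homomorphism given by a derivation -/
theorem semi {Γ C Y : Type u} [Group Γ] [Group C] [AddCommGroup Y] [DistribMulAction C Y] (hdiv : Dvb C)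
    (PC : Set C) (hPC : Cone PC) (K : Set Y)
    (hadd : ∀ x ∈ K, ∀ y ∈ K, x + y ∈ K) (hsm : ∀ (c : C), ∀ x ∈ K, c • x ∈ K) (h0 : (0 : Y) ∉ K)
    (htot : ∀ y : Y, y = 0 ∨ y ∈ K ∨ -y ∈ K)
    (hN : ∀ (c : C) (n : ℕ), 0 < n → ∀ y : Y, ∃ z : Y, ∑ i ∈ Finset.range n, c ^ i • z = y)
    (ι : Γ →* C) (d : Γ → Y) (hd : ∀ g h : Γ, d (g * h) = d g + ι g • d h) :
    ∃ (H : Type u) (_ : Group H) (PH : Set H) (φ : Γ →* H), Cone PH ∧ Dvb H ∧
      (∀ g : Γ, ι g = 1 → d g ∈ K → φ g ∈ PH) ∧ (∀ g : Γ, φ g = 1 → ι g = 1) := by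
  refine ⟨SD C Y, inferInstance, {a | a.c ∈ PC ∨ (a.c = 1 ∧ a.y ∈ K)},
    MonoidHom.mk' (fun g => (⟨d g, ι g⟩ : SD C Y)) (fun g h => by
      ext
      · simp [hd]
      · simp), ?_, ?_, ?_, ?_⟩
  · refine ⟨?_, ?_, ?_, ?_⟩
    · rintro a (ha | ⟨ha, ha'⟩) b (hb | ⟨hb, hb'⟩)
      · left; exact hPC.mul _ ha _ hb
      · left; rw [SD.mul_c, hb, mul_one]; exact ha
      · left; rw [SD.mul_c, ha, one_mul]; exact hb
      · right; refine ⟨by rw [SD.mul_c, ha, hb, one_mul], ?_⟩
        rw [SD.mul_y, ha, one_smul]; exact hadd _ ha' _ hb'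
    · rintro a (ha | ⟨ha, ha'⟩) g
      · left; exact hPC.conj _ ha _
      · right
        constructor
        · simp [ha]
        · have : (g * a * g⁻¹).y = g.c • a.y := by
            simp [ha]
          rw [this]; exact hsm _ _ ha'
    · rintro (h | ⟨_, h⟩)
      · exact hPC.one h
      · exact h0 h
    · intro g
      rcases hPC.tot g.c with h | h | h
      · rcases htot g.y with h' | h' | h'
        · left; ext
          · exact h'
          · exact h
        · right; left; right; exact ⟨h, h'⟩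
        · right; right; right
          refine ⟨by simp [h], ?_⟩
          simp only [SD.inv_y, h, inv_one, one_smul]; exact h'
      · right; left; left; exact h
      · right; right; left; exact h
  · intro g n hn
    obtain ⟨p, hp⟩ := hdiv g.c n hn
    obtain ⟨z, hz⟩ := hN p n hn g.y
    refine ⟨⟨z, p⟩, ?_⟩
    ext
    · rw [SD.pow_y]; exact hz
    · rw [SD.pow_c]; exact hp
  · intro g hg hd'
    right; exact ⟨hg, hd'⟩
  · intro g hg
    have := congrArg SD.c hg
    exact this

end OD
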